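import Pool.Agent.R602.ZR.Trans
import Pool.Agent.R602.ZR.Prod

/-!
# Countable products of compact Hausdorff quasi-metrizable spaces in ZF

The models `ZermeloAtoms` of Zermelo set theory with atoms (in particular all models of ZF) are
defined in `Pool.Agent.Helper672.ZFA.Statement`, finite sets of a model (`FiniteIn`) in
`Pool.Agent.Y9.ZR.Defs`, and the other notions in `Pool.Agent.R602.ZR.Defs` and
`Pool.Agent.R602.ZR.Prod`.
-/

namespace Pool.Agent.Results.MP_5db68c_lc.ProductsInZF

open Pool.Agent.Helper672.ZFA Pool.Agent.R602.ZR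

universe u

/-- In every model of Zermelo set theory with atoms (hence in every model of ZF): if every
countable product of compact metrizable spaces is metrizable, then every countable product of
compact Hausdorff quasi-metrizable spaces is quasi-metrizable. -/
theorem result (M : Type u) [L.Structure M] [ZermeloAtoms M] (R : M) [Field (El R)]
    [LinearOrder (El R)] [IsStrictOrderedRing (El R)] (hR : RealField R) (h : CPMC R) :
    CPQC R := by
  have : IsModel M := ZermeloAtoms.isModel
  intro J X τ hJ hX hτ hsp P σ hP
  obtain ⟨d, hd, hs, hi⟩ := h J X τ hJ hX hτ (fun j => by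
    obtain ⟨e, he, -, hie⟩ := (hsp j).2.2.2
    exact ⟨(hsp j).1, (hsp j).2.1, QM.metrizable_of hR (hsp j).2.1 (hsp j).2.2.1 ⟨e, he, hie⟩⟩)
    P σ hP
  exact ⟨d, hd, fun x y hxy => hd.eq x y hxy ((hs y x).trans hxy), hi⟩

end Pool.Agent.Results.MP_5db68c_lc.ProductsInZF
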